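import Pool.Agent.helper88.RF.SpecW

set_option autoImplicit false

open Finset

namespace Pool.Agent.RF

open Polynomial in
theorem WRO_c3 {F : Type} [Field F] (a b c d : F) (h : ¬ (a = 0 ∧ b = 0 ∧ c = 0 ∧ d = 0)) (s : Finset F)
    (hs : ∀ r ∈ s, a * r ^ 3 + b * r ^ 2 + c * r + d = 0) : s.card ≤ 3 := by
  classical
  obtain ⟨p, hp⟩ : ∃ p : F[X], p = C a * X ^ 3 + C b * X ^ 2 + C c * X + C d := ⟨_, rfl⟩
  have hp0 : p ≠ 0 := by
    intro h0
    apply h
    have h3 : p.coeff 3 = a := by simp [hp]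
    have h2 : p.coeff 2 = b := by simp [hp]
    have h1 : p.coeff 1 = c := by simp [hp]
    have h00 : p.coeff 0 = d := by simp [hp]
    rw [h0] at h3 h2 h1 h00
    simp only [coeff_zero] at h3 h2 h1 h00
    exact ⟨h3.symm, h2.symm, h1.symm, h00.symm⟩
  have hdeg : p.natDegree ≤ 3 := by rw [hp]; exact natDegree_cubic_le
  have hsub : s ⊆ p.roots.toFinset := by
    intro r hr
    rw [Multiset.mem_toFinset, mem_roots hp0, IsRoot.def, hp]
    have := hs r hr
    simpa using this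
  calc s.card ≤ p.roots.toFinset.card := card_le_card hsub
    _ ≤ Multiset.card p.roots := Multiset.toFinset_card_le _
    _ ≤ p.natDegree := p.card_roots'
    _ ≤ 3 := hdeg

open Polynomial in
theorem WRO_c2 {F : Type} [Field F] (b c d : F) (h : ¬ (b = 0 ∧ c = 0 ∧ d = 0)) (s : Finset F)
    (hs : ∀ r ∈ s, b * r ^ 2 + c * r + d = 0) : s.card ≤ 2 := by
  classical
  obtain ⟨p, hp⟩ : ∃ p : F[X], p = C b * X ^ 2 + C c * X + C d := ⟨_, rfl⟩
  have hp0 : p ≠ 0 := by
    intro h0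
    apply h
    have h2 : p.coeff 2 = b := by simp [hp]
    have h1 : p.coeff 1 = c := by simp [hp]
    have h00 : p.coeff 0 = d := by simp [hp]
    rw [h0] at h2 h1 h00
    simp only [coeff_zero] at h2 h1 h00
    exact ⟨h2.symm, h1.symm, h00.symm⟩
  have hdeg : p.natDegree ≤ 2 := by rw [hp]; exact natDegree_quadratic_le
  have hsub : s ⊆ p.roots.toFinset := by
    intro r hr
    rw [Multiset.mem_toFinset, mem_roots hp0, IsRoot.def, hp]
    have := hs r hr
    simpa using this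
  calc s.card ≤ p.roots.toFinset.card := card_le_card hsub
    _ ≤ Multiset.card p.roots := Multiset.toFinset_card_le _
    _ ≤ p.natDegree := p.card_roots'
    _ ≤ 2 := hdeg

theorem WRO_pl {F : Type} [Field F] (a b c d : F) (h : ¬ (a = 0 ∧ b = 0 ∧ c = 0 ∧ d = 0)) (T : Finset (Option F))
    (h1 : none ∈ T → a = 0) (h2 : ∀ r, some r ∈ T → a * r ^ 3 + b * r ^ 2 + c * r + d = 0) : T.card ≤ 3 := by
  classical
  by_cases hn : none ∈ T
  · have ha := h1 hn
    subst ha
    have h3 : (Finset.eraseNone T).card ≤ 2 := by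
      refine WRO_c2 b c d (fun h' => h ⟨rfl, h'⟩) _ fun r hr => ?_
      have := h2 r (Finset.mem_eraseNone.1 hr)
      linear_combination this
    have h4 : T.card ≤ (Finset.insertNone (Finset.eraseNone T)).card := by
      rw [Finset.insertNone_eraseNone]
      exact Finset.card_le_card (Finset.subset_insert _ _)
    rw [Finset.card_insertNone] at h4
    omega
  · have h3 : (Finset.eraseNone T).card ≤ 3 :=
      WRO_c3 a b c d h _ fun r hr => h2 r (Finset.mem_eraseNone.1 hr)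
    have h4 : ((Finset.eraseNone T).map Function.Embedding.some).card = T.card := by
      rw [Finset.map_some_eraseNone, Finset.erase_eq_of_notMem hn]
    rw [Finset.card_map] at h4
    omega

theorem WRO_num : (5 : OO).re = 5 ∧ (5 : OO).im = 0 ∧ (2 : OO).re = 2 ∧ (2 : OO).im = 0 := ⟨rfl, rfl, rfl, rfl⟩

theorem WRO_re (k a z : OO) : (FF k a z).re = (5 * a.re + z.re - 3 * z.im) * k.re ^ 3 + (15 * a.im + 3 * z.re - 10 * z.im) * k.re ^ 2 * k.im +
    (15 * a.re + 15 * a.im - 4 * z.re - 9 * z.im) * k.re * k.im ^ 2 + (5 * a.re + 10 * a.im - 7 * z.re - 3 * z.im) * k.im ^ 3 := by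
  obtain ⟨h1, h2, h3, h4⟩ := WRO_num
  unfold FF ph
  simp [pow_succ, h1, h2, h3, h4]
  ring

theorem WRO_im (k a z : OO) : (FF k a z).im = (5 * a.im - 2 * z.re + z.im) * k.re ^ 3 + (15 * a.re + 15 * a.im - z.re + 5 * z.im) * k.re ^ 2 * k.im +
    (15 * a.re + 30 * a.im + 3 * z.re + 8 * z.im) * k.re * k.im ^ 2 + (10 * a.re + 15 * a.im + 4 * z.re + z.im) * k.im ^ 3 := by
  obtain ⟨h1, h2, h3, h4⟩ := WRO_num
  unfold FF ph
  simp [pow_succ, h1, h2, h3, h4]
  ring

theorem WRO_dvd (p : ℕ) (w : OO) : (p : OO) ∣ w ↔ ((w.re : ZMod p) = 0 ∧ (w.im : ZMod p) = 0) := by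
  rw [ZMod.intCast_zmod_eq_zero_iff_dvd, ZMod.intCast_zmod_eq_zero_iff_dvd]
  constructor
  · rintro ⟨v, rfl⟩
    constructor
    · exact ⟨v.re, by simp⟩
    · exact ⟨v.im, by simp⟩
  · rintro ⟨⟨c, hc⟩, d, hd⟩
    refine ⟨⟨c, d⟩, ?_⟩
    ext
    · simp [hc]
    · simp [hd]

theorem WRO_form {p : ℕ} [Fact p.Prime] (a b c d : ZMod p) (h : ¬ (a = 0 ∧ b = 0 ∧ c = 0 ∧ d = 0)) (S : Finset OO)
    (hS : ∀ k ∈ S, ¬ (p : OO) ∣ k ∧ a * (k.re : ZMod p) ^ 3 + b * (k.re : ZMod p) ^ 2 * (k.im : ZMod p) + c * (k.re : ZMod p) * (k.im : ZMod p) ^ 2 +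
      d * (k.im : ZMod p) ^ 3 = 0) : (S.image (clp p)).card ≤ 3 := by
  classical
  refine WRO_pl a b c d h _ ?_ ?_
  · intro hn
    obtain ⟨k, hk, hk2⟩ := Finset.mem_image.1 hn
    obtain ⟨h1, h2⟩ := hS k hk
    have h3 : (k.im : ZMod p) = 0 := by
      by_contra h4
      unfold clp at hk2
      rw [if_neg h4] at hk2
      exact absurd hk2 (Option.some_ne_none _)
    have h4 : (k.re : ZMod p) ≠ 0 := fun h5 => h1 ((WRO_dvd p k).2 ⟨h5, h3⟩)
    rw [h3] at h2
    have h5 : a * (k.re : ZMod p) ^ 3 = 0 := by linear_combination h2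
    exact (mul_eq_zero.1 h5).resolve_right (pow_ne_zero 3 h4)
  · intro r hr
    obtain ⟨k, hk, hk2⟩ := Finset.mem_image.1 hr
    obtain ⟨h1, h2⟩ := hS k hk
    have h3 : (k.im : ZMod p) ≠ 0 := by
      intro h4
      unfold clp at hk2
      rw [if_pos h4] at hk2
      exact absurd hk2.symm (Option.some_ne_none _)
    unfold clp at hk2
    rw [if_neg h3] at hk2
    have h4 := Option.some_injective _ hk2
    have h5 : r * (k.im : ZMod p) = (k.re : ZMod p) := by
      rw [← h4, mul_assoc, inv_mul_cancel₀ h3, mul_one]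
    have h6 : (a * r ^ 3 + b * r ^ 2 + c * r + d) * (k.im : ZMod p) ^ 3 = 0 := by
      rw [← h5] at h2
      linear_combination h2
    exact (mul_eq_zero.1 h6).resolve_right (pow_ne_zero 3 h3)

theorem WRO_proof : WRO_stmt := by
  intro p hp hp5
  have hpf : Fact p.Prime := ⟨hp⟩
  have h50 : (5 : ZMod p) ≠ 0 := by
    intro h
    have h1 : ((5 : ℕ) : ZMod p) = 0 := by exact_mod_cast h
    rw [ZMod.natCast_eq_zero_iff] at h1
    exact hp5 ((Nat.prime_dvd_prime_iff_eq hp (by norm_num)).1 h1)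
  refine ⟨fun a z haz S hS => ?_, fun k k₁ hk hk₁ h => ?_⟩
  · by_cases hA : ((5 * (a.re : ZMod p) + z.re - 3 * z.im = 0) ∧ (15 * (a.im : ZMod p) + 3 * z.re - 10 * z.im = 0) ∧
        (15 * (a.re : ZMod p) + 15 * a.im - 4 * z.re - 9 * z.im = 0) ∧ (5 * (a.re : ZMod p) + 10 * a.im - 7 * z.re - 3 * z.im = 0))
    · obtain ⟨A3, A2, A1, A0⟩ := hA
      refine WRO_form (5 * (a.im : ZMod p) - 2 * (z.re : ZMod p) + (z.im : ZMod p)) (15 * (a.re : ZMod p) + 15 * (a.im : ZMod p) - (z.re : ZMod p) + 5 * (z.im : ZMod p))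
        (15 * (a.re : ZMod p) + 30 * (a.im : ZMod p) + 3 * (z.re : ZMod p) + 8 * (z.im : ZMod p)) (10 * (a.re : ZMod p) + 15 * (a.im : ZMod p) + 4 * (z.re : ZMod p) + (z.im : ZMod p)) ?_ S ?_
      · rintro ⟨B3, B2, B1, B0⟩
        apply haz
        have e1 : 5 * (5 * (a.re : ZMod p)) = 0 := by linear_combination 6 * A3 - A2 - A0 + 5 * B3
        have e2 : 5 * (5 * (a.im : ZMod p)) = 0 := by linear_combination 93 * A3 - 24 * A1 + 98 * B3 - 7 * B2
        have e3 : 5 * (z.re : ZMod p) = 0 := by linear_combination 42 * A3 - 11 * A1 + 42 * B3 - 3 * B2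
        have e4 : 5 * (z.im : ZMod p) = 0 := by linear_combination -9 * A3 + 2 * A1 - 9 * B3 + B2
        have z5 : ∀ t : ZMod p, 5 * t = 0 → t = 0 := fun t ht => (mul_eq_zero.1 ht).resolve_left h50
        exact ⟨(WRO_dvd p a).2 ⟨z5 _ (z5 _ e1), z5 _ (z5 _ e2)⟩, (WRO_dvd p z).2 ⟨z5 _ e3, z5 _ e4⟩⟩
      · intro k hk
        refine ⟨(hS k hk).1, ?_⟩
        have h1 := ((WRO_dvd p _).1 (hS k hk).2).2
        rw [WRO_im] at h1
        push_cast at h1
        exact h1
    · refine WRO_form (5 * (a.re : ZMod p) + (z.re : ZMod p) - 3 * (z.im : ZMod p)) (15 * (a.im : ZMod p) + 3 * (z.re : ZMod p) - 10 * (z.im : ZMod p))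
        (15 * (a.re : ZMod p) + 15 * (a.im : ZMod p) - 4 * (z.re : ZMod p) - 9 * (z.im : ZMod p)) (5 * (a.re : ZMod p) + 10 * (a.im : ZMod p) - 7 * (z.re : ZMod p) - 3 * (z.im : ZMod p)) hA S ?_
      intro k hk
      refine ⟨(hS k hk).1, ?_⟩
      have h1 := ((WRO_dvd p _).1 (hS k hk).2).1
      rw [WRO_re] at h1
      push_cast at h1
      exact h1
  · rw [← ZMod.intCast_zmod_eq_zero_iff_dvd]
    unfold dt
    push_cast
    unfold clp at h
    by_cases h1 : (k.im : ZMod p) = 0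
    · rw [if_pos h1] at h
      by_cases h2 : (k₁.im : ZMod p) = 0
      · rw [h1, h2]
        ring
      · rw [if_neg h2] at h
        exact absurd h.symm (Option.some_ne_none _)
    · rw [if_neg h1] at h
      by_cases h2 : (k₁.im : ZMod p) = 0
      · rw [if_pos h2] at h
        exact absurd h (Option.some_ne_none _)
      · rw [if_neg h2] at h
        have h3 := Option.some_injective _ h
        have h4 : (k.re : ZMod p) * k₁.im = k₁.re * k.im := by
          have h5 : (k.re : ZMod p) * (k.im : ZMod p)⁻¹ * ((k.im : ZMod p) * k₁.im) =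
              (k₁.re : ZMod p) * (k₁.im : ZMod p)⁻¹ * ((k.im : ZMod p) * k₁.im) := by rw [h3]
          have h6 : (k.im : ZMod p)⁻¹ * (k.im : ZMod p) = 1 := inv_mul_cancel₀ h1
          have h7 : (k₁.im : ZMod p)⁻¹ * (k₁.im : ZMod p) = 1 := inv_mul_cancel₀ h2
          linear_combination h5 - (k.re : ZMod p) * k₁.im * h6 + (k₁.re : ZMod p) * k.im * h7
        linear_combination -h4

end Pool.Agent.RF
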