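import Pool.Agent.helper13.RF.SpecU

set_option autoImplicit false

namespace Pool.Agent.RF

open NumberField

theorem BTA (h1 : HA3_stmt) (h2 : UOC_stmt) (h3 : CN3_stmt) (h4 : CG3_stmt) : BT_stmt := by
  refine ⟨gUb, hU, ?_, h3, h4⟩
  intro p D₀ f hp hsq hD
  have hf : 0 < f := by
    rcases Nat.eq_zero_or_pos f with h0 | h0
    · exfalso
      have h01 := hp.D0
      rw [hD, h0] at h01
      simp at h01
    · exact h0
  obtain ⟨a1, a2, a3, a4, a5, a6, a7, a8⟩ := h1 f p hf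
  refine ⟨a1, a2, fun _ => a6, fun hne => ?_⟩
  obtain ⟨l, hl, hlg⟩ := Nat.exists_prime_and_dvd hne
  obtain ⟨b1, b2⟩ := (a8 l hl).1 hlg
  refine ⟨l, hl, hlg, ?_⟩
  rcases h2 p hp D₀ f l hD hl b1 b2 with h | h
  · exact Or.inl h
  · exact Or.inr ⟨h, b2⟩

end Pool.Agent.RF
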