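import Pool.Agent.helper13.RF.SpecU

set_option autoImplicit false

namespace Pool.Agent.RF

open NumberField

theorem UTY_mem (F : Type) [Field F] [NumberField F] (g : ℕ) (hg : 0 < g) (P : Ideal (𝓞 F)) :
    P ∈ QP F g ↔ P.IsPrime ∧ (g : 𝓞 F) ∈ P := by
  classical
  have hn0 : Ideal.span {(g : 𝓞 F)} ≠ ⊥ := by
    rw [Ne, Ideal.span_singleton_eq_bot]
    exact Nat.cast_ne_zero.2 hg.ne'
  unfold QP
  rw [Multiset.mem_toFinset, Ideal.mem_normalizedFactors_iff hn0, Ideal.span_singleton_le_iff_mem]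

/-- the type at one prime -/
noncomputable def UTY_t {D : ℤ} {F : Type} [Field F] [NumberField F] (C : Ctx D F) (f : ℕ) (p : Pt)
    (P : Ideal (𝓞 F)) : ℕ × ℕ :=
  (vv P (C.σ (C.σ (uu C f p))) % 5, min (vv P (C.σ (C.σ (uu C f p)))) (14 * vv P (f : 𝓞 F)))

theorem UTY : UTY_stmt := by
  classical
  intro D₀ F _ _ C f hf B hB S hT
  obtain ⟨ty, hty⟩ : ∃ ty : Pt → (↥(QP F f) → ℕ × ℕ), ty = fun (p : Pt) (x : ↥(QP F f)) => UTY_t C f p (x : Ideal (𝓞 F)) := ⟨_, rfl⟩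
  have hmem : ∀ p ∈ S, ty p ∈ Fintype.piFinset (fun x : ↥(QP F f) =>
      Finset.range 5 ×ˢ Finset.range (14 * vv (x : Ideal (𝓞 F)) (f : 𝓞 F) + 1)) := by
    intro p hp
    rw [Fintype.mem_piFinset]
    intro x
    rw [hty, Finset.mem_product, Finset.mem_range, Finset.mem_range]
    show vv (x : Ideal (𝓞 F)) (C.σ (C.σ (uu C f p))) % 5 < 5 ∧
      min (vv (x : Ideal (𝓞 F)) (C.σ (C.σ (uu C f p)))) (14 * vv (x : Ideal (𝓞 F)) (f : 𝓞 F)) <
        14 * vv (x : Ideal (𝓞 F)) (f : 𝓞 F) + 1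
    constructor <;> omega
  have hfib : ∀ b ∈ Fintype.piFinset (fun x : ↥(QP F f) =>
      Finset.range 5 ×ˢ Finset.range (14 * vv (x : Ideal (𝓞 F)) (f : 𝓞 F) + 1)),
      ((S.filter fun p => ty p = b).card : ℝ) ≤ B := by
    intro b _
    refine hT _ (Finset.filter_subset _ _) fun p hp q hq => ?_
    rw [Finset.mem_filter] at hp hq
    have e1 : ty p = ty q := hp.2.trans hq.2.symm
    intro P hP hgP
    have hPQ : P ∈ QP F f := (UTY_mem F f hf P).2 ⟨hP, hgP⟩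
    have e2 := congrFun e1 ⟨P, hPQ⟩
    rw [hty] at e2
    have e3 : vv P (C.σ (C.σ (uu C f p))) % 5 = vv P (C.σ (C.σ (uu C f q))) % 5 := congrArg Prod.fst e2
    have e4 : min (vv P (C.σ (C.σ (uu C f p)))) (14 * vv P (f : 𝓞 F)) =
      min (vv P (C.σ (C.σ (uu C f q)))) (14 * vv P (f : 𝓞 F)) := congrArg Prod.snd e2
    refine ⟨?_, e4⟩
    omega
  have hcard := Finset.card_eq_sum_card_fiberwise hmem
  rw [hcard, Nat.cast_sum]
  refine (Finset.sum_le_sum hfib).trans ?_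
  rw [Finset.sum_const, nsmul_eq_mul]
  refine mul_le_mul_of_nonneg_right (le_of_eq ?_) hB
  rw [Fintype.card_piFinset]
  congr 1
  rw [← Finset.prod_coe_sort (QP F f) (fun P => 5 * (14 * vv P (f : 𝓞 F) + 1))]
  refine Finset.prod_congr rfl fun x _ => ?_
  rw [Finset.card_product, Finset.card_range, Finset.card_range]

end Pool.Agent.RF
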