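import Pool.Agent.helper13.RF.SpecM

set_option autoImplicit false

namespace Pool.Agent.RF

open NumberField

theorem CN2 (h1 : MEX_stmt) (h2 : CTX_stmt) (h3 : GDV_stmt) (h4 : TTY_stmt) (h5 : TTP_stmt) (h6 : TCL_stmt) (h7 : MU2_stmt) (h8 : HAR_stmt) (h9 : HWB_stmt) : CNT2_stmt := by
  refine ⟨W2, fun g => (g ^ 27).divisors, Pool.Agent.RF.h2, fun g => ?_, h9, ?_, ?_, ?_⟩
  · unfold W2
    positivity
  · simp
  · intro f g hf hgf
    obtain ⟨a1, a2, a3, a4, -⟩ := h8 f g hf hgf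
    have hg : 0 < g := Nat.pos_of_dvd_of_pos hgf hf
    refine ⟨⟨F2 f g, a1.symm⟩, ?_⟩
    rw [Nat.mem_divisors]
    exact ⟨a2, by positivity⟩
  · intro D₀ f g hD1 hsq h5D K _ _ hK hx S hS hk
    have hD5 : D₀ ≠ 5 := by
      rintro rfl
      exact h5D dvd_rfl
    obtain ⟨F, _, _, s, r, w, hM⟩ := h1 D₀ hD1 hsq hD5
    obtain ⟨C, hCs, -⟩ := h2 D₀ F s r w hD1 hsq h5D hM
    have hM' : Mir D₀ F C.s r w := by rw [hCs]; exact hM
    have hW : 0 ≤ W2 g := by
      unfold W2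
      positivity
    rcases S.eq_empty_or_nonempty with he | ⟨p₀, hp₀⟩
    · rw [he, Finset.card_empty, Nat.cast_zero]
      positivity
    · obtain ⟨a1, a2, a3, -⟩ := hS p₀ hp₀
      obtain ⟨b1, -, -, b4⟩ := h3 p₀ a1 D₀ f hsq a2
      rw [a3] at b1 b4
      have hf : 0 < f := by
        rcases Nat.eq_zero_or_pos f with h0 | h0
        · exfalso
          have h01 := a1.D0
          rw [a2, h0] at h01
          simp at h01
        · exact h0
      obtain ⟨c1, c2, c3, c4, c5⟩ := h8 f g hf b1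
      obtain ⟨B, hB⟩ : ∃ B : ℝ, B = 1 + 36 ^ f.primeFactors.card * (1 + 180 * ((f : ℝ) / (g * F2 f g)) ^ 2) := ⟨_, rfl⟩
      have hB0 : 0 ≤ B := by
        rw [hB]
        positivity
      obtain ⟨Cl, hCl⟩ : ∃ Cl : ℝ, Cl = (Nat.card {c : ClassGroup (𝓞 K) // c ^ 5 = 1} : ℝ) := ⟨_, rfl⟩
      have hCl0 : 0 ≤ Cl := by
        rw [hCl]
        positivity
      have key : (S.card : ℝ) ≤ ((∏ P ∈ QP F g, (5 * (14 * vv P (g : 𝓞 F) + 1)) : ℕ) : ℝ) * (Cl * B) := by
        refine h4 D₀ F C f g b4 _ (by positivity) S (fun p hp => ?_) ?_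
        · obtain ⟨d1, d2, d3, -⟩ := hS p hp
          exact ⟨d1, d2, d3⟩
        · intro T hT hSame
          rw [hCl]
          refine h6 D₀ F C f g hD1 hsq hD5 ⟨r, w, hM'⟩ K hK hx B hB0 T (fun p hp => ?_) hSame ?_
          · obtain ⟨d1, d2, d3, -⟩ := hS p (hT hp)
            exact ⟨d1, d2, d3⟩
          · intro T' hT' hEq
            rw [hB]
            exact h7 D₀ F C f g hsq (by omega) T' (fun p hp => hS p (hT (hT' hp)))
              (fun p hp q hq => hk p (hT (hT' hp)) q (hT (hT' hq)))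
              (fun p hp q hq => ⟨hSame p (hT' hp) q (hT' hq), hEq p hp q hq⟩)
      have hT : ((∏ P ∈ QP F g, (5 * (14 * vv P (g : 𝓞 F) + 1)) : ℕ) : ℝ) ≤
          285 ^ (4 * g.primeFactors.card) * (g.divisors.card : ℝ) ^ 4 := by
        exact_mod_cast h5 F hM.fin g b4
      have hdiv : f / (g * Pool.Agent.RF.h2 f g) = F2 f g :=
        Nat.div_eq_of_eq_mul_right (Nat.mul_pos b4 c4) c1.symm
      have hq : (f : ℝ) / (g * F2 f g) = (Pool.Agent.RF.h2 f g : ℝ) := by
        have e1 : (f : ℝ) = g * Pool.Agent.RF.h2 f g * F2 f g := by exact_mod_cast c1.symm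
        have e2 : (0 : ℝ) < g := by exact_mod_cast b4
        have e3 : (0 : ℝ) < F2 f g := by exact_mod_cast c3
        rw [e1]
        field_simp
      rw [hq] at hB
      rw [hdiv, ← hCl]
      obtain ⟨H, hH⟩ : ∃ H : ℝ, H = (Pool.Agent.RF.h2 f g : ℝ) := ⟨_, rfl⟩
      rw [← hH] at hB ⊢
      have h36 : (36 : ℝ) ^ f.primeFactors.card ≤ 36 ^ g.primeFactors.card * 36 ^ (F2 f g).primeFactors.card := by
        rw [← pow_add]
        exact pow_le_pow_right₀ (by norm_num) c5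
      have h361 : (1 : ℝ) ≤ 36 ^ f.primeFactors.card := one_le_pow₀ (by norm_num)
      have hB1 : B ≤ 181 * (36 ^ g.primeFactors.card * 36 ^ (F2 f g).primeFactors.card) * (1 + H ^ 2) := by
        have e4 : B ≤ 181 * 36 ^ f.primeFactors.card * (1 + H ^ 2) := by
          rw [hB]
          nlinarith [mul_nonneg (show (0 : ℝ) ≤ 36 ^ f.primeFactors.card - 1 by linarith) (sq_nonneg H), sq_nonneg H]
        refine e4.trans ?_
        gcongr
      calc (S.card : ℝ) ≤ _ := key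
        _ ≤ (285 ^ (4 * g.primeFactors.card) * (g.divisors.card : ℝ) ^ 4) *
            (Cl * (181 * (36 ^ g.primeFactors.card * 36 ^ (F2 f g).primeFactors.card) * (1 + H ^ 2))) := by
          gcongr
        _ = W2 g * 36 ^ (F2 f g).primeFactors.card * (Cl * (1 + H ^ 2)) := by
          unfold W2
          ring

end Pool.Agent.RF
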